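import Mathlib

set_option autoImplicit false

/-!
# Functions on the upper half plane given by `q`-expansions
-/

namespace Pool.Agent.R396.QM

open UpperHalfPlane Complex ModularForm ModularGroup Filter Topology
open scoped MatrixGroups Real Manifold

noncomputable section

/-- `F` has the `q`-expansion with coefficients `c`. -/
def HasQ (F : ℍ → ℂ) (c : ℕ → ℂ) : Prop :=
  ∀ τ : ℍ, HasSum (fun m : ℕ => c m * Function.Periodic.qParam 1 τ ^ m) (F τ)

theorem HasQ.smul_form {F : ℍ → ℂ} {c : ℕ → ℂ} (h : HasQ F c) (τ : ℍ) :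
    HasSum (fun m : ℕ => c m • Function.Periodic.qParam 1 τ ^ m) (F τ) := by
  simpa [smul_eq_mul] using h τ

theorem HasQ.bdd {F : ℍ → ℂ} {c : ℕ → ℂ} (h : HasQ F c) : IsBoundedAtImInfty F :=
  isBoundedAtImInfty_of_hasSum_qExpansion one_pos h.smul_form

/-- the power series -/
theorem summable_of_hasQ {F : ℍ → ℂ} {c : ℕ → ℂ} (h : HasQ F c) {r : ℝ} (h0 : 0 ≤ r) (h1 : r < 1) :
    Summable fun m => ‖c m‖ * r ^ m := by
  rcases h0.eq_or_lt with rfl | h0
  · refine summable_of_ne_finset_zero (s := {0}) fun m hm => ?_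
    simp at hm
    simp [hm]
  · have him : 0 < (Function.Periodic.invQParam 1 (r : ℂ)).im :=
      Function.Periodic.im_invQParam_pos_of_norm_lt_one one_pos (by
        rw [Complex.norm_real, Real.norm_eq_abs, abs_of_pos h0]; exact h1)
        (by exact_mod_cast h0.ne')
    have := (h ⟨_, him⟩).summable.norm
    refine this.congr fun m => ?_
    rw [norm_mul, norm_pow]
    congr 2
    show ‖Function.Periodic.qParam 1 (Function.Periodic.invQParam 1 (r : ℂ))‖ = r
    rw [Function.Periodic.qParam_right_inv one_ne_zero (by exact_mod_cast h0.ne'),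
      Complex.norm_real, Real.norm_eq_abs, abs_of_pos h0]

theorem HasQ.mdiff {F : ℍ → ℂ} {c : ℕ → ℂ} (h : HasQ F c) : MDiff F := by
  have hd : DifferentiableOn ℂ (fun s : ℂ => ∑' m : ℕ, c m * s ^ m) (Metric.ball 0 1) := by
    intro s hs
    rw [Metric.mem_ball, dist_zero_right] at hs
    obtain ⟨r, hr1, hr2⟩ := exists_between hs
    have hr0 : 0 ≤ r := (norm_nonneg _).trans hr1.le
    have hd : DifferentiableOn ℂ (fun s => ∑' i : ℕ, c i * s ^ i) (Metric.ball 0 r) := by
      refine differentiableOn_tsum_of_summable_norm (summable_of_hasQ h hr0 hr2)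
        (fun i => by fun_prop) Metric.isOpen_ball fun i w hw => ?_
      rw [norm_mul, norm_pow]
      rw [Metric.mem_ball, dist_zero_right] at hw
      exact mul_le_mul_of_nonneg_left (pow_le_pow_left₀ (norm_nonneg _) hw.le _) (norm_nonneg _)
    have hmem : s ∈ Metric.ball (0 : ℂ) r := by
      rw [Metric.mem_ball, dist_zero_right]; exact hr1
    exact (hd.differentiableAt (Metric.isOpen_ball.mem_nhds hmem)).differentiableWithinAt
  rw [UpperHalfPlane.mdifferentiable_iff]
  have h2 : DifferentiableOn ℂ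
      ((fun s : ℂ => ∑' m : ℕ, c m * s ^ m) ∘ fun z : ℂ => Function.Periodic.qParam 1 z)
      {z | 0 < z.im} := by
    refine hd.comp ?_ ?_
    · unfold Function.Periodic.qParam
      fun_prop
    · intro z hz
      rw [Metric.mem_ball, dist_zero_right]
      exact Function.Periodic.norm_qParam_lt_one one_pos hz
  refine h2.congr fun z hz => ?_
  have hz' : 0 < z.im := hz
  simp only [Function.comp_apply]
  rw [ofComplex_apply_of_im_pos hz']
  exact ((h ⟨z, hz'⟩).tsum_eq).symm

theorem q_add_one (w : ℂ) : Function.Periodic.qParam 1 (w + 1) = Function.Periodic.qParam 1 w := by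
  unfold Function.Periodic.qParam
  have : 2 * (π : ℂ) * Complex.I * (w + 1) / ((1 : ℝ) : ℂ) =
      2 * (π : ℂ) * Complex.I * w / ((1 : ℝ) : ℂ) + 2 * (π : ℂ) * Complex.I := by
    push_cast
    ring
  rw [this, Complex.exp_add, Complex.exp_two_pi_mul_I, mul_one]

theorem HasQ.slashT {F : ℍ → ℂ} {c : ℕ → ℂ} (h : HasQ F c) (k : ℤ) : F ∣[k] T = F := by
  ext τ
  rw [SL_slash_apply]
  have e1 : F (T • τ) = F τ := by
    refine (h (T • τ)).unique ?_
    have : Function.Periodic.qParam 1 ((T • τ : ℍ) : ℂ) = Function.Periodic.qParam 1 τ := by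
      have h1 : ((T • τ : ℍ) : ℂ) = (τ : ℂ) + 1 := by
        rw [modular_T_smul]
        simp [add_comm]
      rw [h1]
      exact q_add_one _
    rw [this]
    exact h τ
  rw [e1]
  simp [denom_apply, T]

/-- the modular form with given `q`-expansion -/
theorem HasQ.form {F : ℍ → ℂ} {c : ℕ → ℂ} (h : HasQ F c) {k : ℤ} (hS : F ∣[k] S = F) :
    ∃ f : ModularForm 𝒮ℒ k, (f : ℍ → ℂ) = F := by
  refine ⟨{ toFun := F, slash_action_eq' := ?_, holo' := h.mdiff, bdd_at_cusps' := ?_ }, rfl⟩
  · rintro A ⟨A, rfl⟩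
    exact SlashInvariantForm.slash_action_generators_SL2Z hS (h.slashT k) A
  · intro c' hc
    rw [Subgroup.IsArithmetic.isCusp_iff_isCusp_SL2Z] at hc
    rw [OnePoint.isBoundedAt_iff_forall_SL2Z hc]
    intro γ _
    rw [SlashInvariantForm.slash_action_generators_SL2Z hS (h.slashT k)]
    exact h.bdd

theorem HasQ.per {F : ℍ → ℂ} {c : ℕ → ℂ} (h : HasQ F c) :
    Function.Periodic (F ∘ ofComplex) ((1 : ℝ) : ℂ) := by
  intro w
  by_cases hw : 0 < w.im
  · have hw' : 0 < (w + ((1 : ℝ) : ℂ)).im := by simpa using hw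
    simp only [Function.comp_apply]
    rw [ofComplex_apply_of_im_pos hw, ofComplex_apply_of_im_pos hw']
    refine (h ⟨_, hw'⟩).unique ?_
    have h1 := h ⟨_, hw⟩
    have e : Function.Periodic.qParam 1 (w + ((1 : ℝ) : ℂ)) = Function.Periodic.qParam 1 w := by
      rw [Complex.ofReal_one]
      exact q_add_one w
    show HasSum (fun m => c m * Function.Periodic.qParam 1 (w + ((1 : ℝ) : ℂ)) ^ m) _
    rw [e]
    exact h1
  · have hw' : ¬ 0 < (w + ((1 : ℝ) : ℂ)).im := by simpa using hw
    simp only [Function.comp_apply]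
    rw [ofComplex_apply_of_im_nonpos (not_lt.1 hw), ofComplex_apply_of_im_nonpos (not_lt.1 hw')]

theorem HasQ.analytic {F : ℍ → ℂ} {c : ℕ → ℂ} (h : HasQ F c) :
    AnalyticAt ℂ (cuspFunction 1 F) 0 :=
  analyticAt_cuspFunction_zero one_pos h.per h.mdiff h.bdd

theorem HasQ.unique {F : ℍ → ℂ} {c d : ℕ → ℂ} (h : HasQ F c) (h' : HasQ F d) : c = d := by
  have h1 := (hasFPowerSeriesOnBall_cuspFunction one_pos h.analytic h.smul_form).hasFPowerSeriesAt
  have h2 := (hasFPowerSeriesOnBall_cuspFunction one_pos h.analytic h'.smul_form).hasFPowerSeriesAt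
  funext m
  simpa using congr_arg (FormalMultilinearSeries.coeff · m) (h1.eq_formalMultilinearSeries h2)

/-- weight 0: constant -/
theorem HasQ.weight_zero {F : ℍ → ℂ} {c : ℕ → ℂ} (h : HasQ F c) (hS : F ∣[(0 : ℤ)] S = F) :
    (∀ τ, F τ = c 0) ∧ ∀ m, m ≠ 0 → c m = 0 := by
  obtain ⟨f, hf⟩ := h.form hS
  obtain ⟨a, ha⟩ := ModularFormClass.levelOne_weight_zero_const f
  rw [hf] at ha
  have h1 : HasQ F (fun m => if m = 0 then a else 0) := by
    intro τ
    rw [ha]
    show HasSum _ a
    have := hasSum_ite_eq (0 : ℕ) a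
    convert this using 1
    funext m
    by_cases hm : m = 0
    · simp [hm]
    · simp [hm]
  have h2 := h.unique h1
  refine ⟨fun τ => ?_, fun m hm => ?_⟩
  · rw [ha, h2]
    simp
  · rw [h2]
    simp [hm]

/-- weight 2: zero -/
theorem HasQ.weight_two {F : ℍ → ℂ} {c : ℕ → ℂ} (h : HasQ F c) (hS : F ∣[(2 : ℤ)] S = F) :
    ∀ m, c m = 0 := by
  obtain ⟨f, hf⟩ := h.form hS
  have h0 : f = 0 := rank_zero_iff_forall_zero.1 ModularForm.levelOne_weight_two_rank_zero f
  have hF : F = 0 := by rw [← hf, h0]; rfl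
  have h1 : HasQ F (fun _ => 0) := by
    intro τ
    rw [hF]
    simp [hasSum_zero]
  intro m
  rw [h.unique h1]

end

end Pool.Agent.R396.QM
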